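import Pool.Agent.H64.GG.TC
import Pool.Agent.H71.SX.REL
import Pool.Agent.H40.LG.RELK

/-!
# Linear relations over the cyclotomic field (row RLQ of rgd_modules, MP_c65535_nt)
-/

set_option autoImplicit false

namespace Pool.Agent.H97.GG

open NumberField Height Finset Polynomial Pool.Agent.H24.RD Pool.Agent.H23.RDD Pool.Agent.H29.RQ
  Pool.Agent.H29.SX Pool.Agent.H29.LG Pool.Agent.H64.GG

/-- the field generated by the radicals is spanned by the monomials over the cyclotomic field -/
lemma gf_span (r : ℕ) (a : Fin r → ℚ) (N : Fin r → ℕ) (hN : ∀ i, 0 < N i) (θ : Fin r → Om)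
    (hθ : ∀ i, θ i ^ N i = algebraMap ℚ Om (a i)) (m : ℕ) (x : Om) (hx : x ∈ GF θ m) :
    x ∈ Submodule.span (CY m) (Set.range fun e : (i : Fin r) → Fin (N i) =>
      ∏ i, θ i ^ (e i : ℕ)) := by
  classical
  have h0 : Algebra.IsAlgebraic ℚ Om := AlgebraicClosure.isAlgebraic ℚ
  have h1 : x ∈ Algebra.adjoin (CY m) (Set.range θ) := by
    have h2 : x ∈ (IntermediateField.adjoin ℚ ({z : Om | z ^ m = 1} ∪ Set.range θ)).toSubalgebra :=
      hx
    rw [IntermediateField.adjoin_toSubalgebra] at h2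
    clear hx
    induction h2 using Algebra.adjoin_induction with
    | mem z hz =>
      rcases hz with hz | ⟨i, rfl⟩
      · have hm : z ∈ CY m := IntermediateField.subset_adjoin ℚ _ hz
        exact Subalgebra.algebraMap_mem (Algebra.adjoin (CY m) (Set.range θ)) (⟨z, hm⟩ : CY m)
      · exact Algebra.subset_adjoin ⟨i, rfl⟩
    | algebraMap c =>
      exact Subalgebra.algebraMap_mem (Algebra.adjoin (CY m) (Set.range θ))
        (algebraMap ℚ (CY m) c)
    | add a b _ _ ha hb => exact add_mem ha hb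
    | mul a b _ _ ha hb => exact mul_mem ha hb
  have h5 : x ∈ Submodule.span (CY m) (Submonoid.closure (Set.range θ) : Set Om) := by
    rw [← Algebra.adjoin_eq_span]
    exact h1
  refine (Submodule.span_le.2 ?_) h5
  intro y hy
  obtain ⟨e, rfl⟩ := Pool.Agent.H40.LG.closure_monomial θ y hy
  have h6 : ∏ i, θ i ^ e i = (algebraMap ℚ (CY m) (∏ i, a i ^ (e i / N i))) •
      ∏ i, θ i ^ (e i % N i) := by
    rw [Algebra.smul_def, ← IsScalarTower.algebraMap_apply ℚ (CY m) Om, map_prod,
      ← Finset.prod_mul_distrib]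
    refine Finset.prod_congr rfl fun i _ => ?_
    rw [map_pow, ← hθ i, ← pow_mul, ← pow_add, Nat.div_add_mod]
  change ∏ i, θ i ^ e i ∈ Submodule.span (CY m) _
  rw [h6]
  refine Submodule.smul_mem _ _ (Submodule.subset_span ?_)
  exact ⟨fun i => ⟨e i % N i, Nat.mod_lt _ (hN i)⟩, rfl⟩

theorem pf_RLQ : T_RLQ := by
  intro r a N θ β m₃ d hN ha hθ hβ hm₃ hX S hS
  classical
  have h0 : Algebra.IsAlgebraic ℚ Om := AlgebraicClosure.isAlgebraic ℚ
  have hC : Cj ℚ Om (GF θ m₃) d β := by
    obtain ⟨X, hX1, hX2⟩ := hX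
    refine ⟨X, hX1, fun σ hσ => hX2 σ (fun z hz => hσ z ?_) (fun i => hσ _ ?_)⟩
    · exact (IntermediateField.adjoin.mono ℚ _ _ Set.subset_union_left) hz
    · exact IntermediateField.subset_adjoin ℚ _ (Or.inr ⟨i, rfl⟩)
  obtain ⟨hfd, hfr⟩ := Pool.Agent.H71.SX.finrank_le_of_Cj ℚ Om (GF θ m₃) d β hC
  have hTE : ∀ i, θ i ∈ GF θ m₃ := fun i =>
    IntermediateField.subset_adjoin ℚ _ (Or.inr ⟨i, rfl⟩)
  set n := Module.finrank (GF θ m₃) (IntermediateField.adjoin (GF θ m₃) {β}) with hn
  let b := Module.finBasis (GF θ m₃) (IntermediateField.adjoin (GF θ m₃) {β})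
  let g : (((i : Fin r) → Fin (N i)) × Fin n) → Om := fun x => (∏ i, θ i ^ (x.1 i : ℕ)) * (b x.2 : Om)
  set W : Submodule (CY m₃) Om := Submodule.span (CY m₃) (Set.range g) with hW
  have hWfd : FiniteDimensional (CY m₃) W :=
    FiniteDimensional.span_of_finite _ (Set.finite_range g)
  have hWfr : Module.finrank (CY m₃) W ≤ (∏ i, N i) * d := by
    have h1 : Module.finrank (CY m₃) W ≤ Fintype.card (((i : Fin r) → Fin (N i)) × Fin n) :=
      finrank_range_le_card g
    rw [Fintype.card_prod, Fintype.card_pi, Fintype.card_fin] at h1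
    simp only [Fintype.card_fin] at h1
    exact h1.trans (Nat.mul_le_mul_left _ hfr)
  have hWmem : ∀ x ∈ IntermediateField.adjoin (GF θ m₃) {β}, x ∈ W := by
    intro x hx
    have h1 := b.sum_repr ⟨x, hx⟩
    have h2 := congrArg (fun z : IntermediateField.adjoin (GF θ m₃) {β} => (z : Om)) h1
    simp only [AddSubmonoidClass.coe_finsetSum] at h2
    rw [← h2]
    refine Submodule.sum_mem _ fun j _ => ?_
    have h3 : ((b.repr ⟨x, hx⟩ j • b j : IntermediateField.adjoin (GF θ m₃) {β}) : Om) =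
        ((b.repr ⟨x, hx⟩ j : GF θ m₃) : Om) * (b j : Om) := by
      rw [IntermediateField.coe_smul, Algebra.smul_def]
      rfl
    rw [h3]
    have h4 := gf_span r a N hN θ hθ m₃ _ (b.repr ⟨x, hx⟩ j).2
    generalize ((b.repr ⟨x, hx⟩ j : GF θ m₃) : Om) = c at h4
    induction h4 using Submodule.span_induction with
    | mem y hy =>
      obtain ⟨e, rfl⟩ := hy
      exact Submodule.subset_span ⟨(e, j), rfl⟩
    | zero => rw [zero_mul]; exact Submodule.zero_mem _
    | add y z _ _ hy hz => rw [add_mul]; exact Submodule.add_mem _ hy hz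
    | smul a y _ hy =>
      rw [smul_mul_assoc]
      exact Submodule.smul_mem _ _ hy
  set y : (Fin (r + 1) → ℤ) → Om := fun a => pt θ β a with hy
  have hmem : ∀ a, y a ∈ W := by
    intro a
    apply hWmem
    show pt θ β a ∈ IntermediateField.adjoin (GF θ m₃) {β}
    unfold pt
    apply mul_mem
    · exact zpow_mem (IntermediateField.mem_adjoin_simple_self _ β) _
    · apply prod_mem
      intro i _
      apply zpow_mem
      exact IntermediateField.algebraMap_mem (IntermediateField.adjoin (GF θ m₃) {β})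
        (⟨θ i, hTE i⟩ : GF θ m₃)
  have hnl : ¬ LinearIndependent (CY m₃) (fun a : S => (⟨y a.1, hmem a.1⟩ : W)) := by
    intro hli
    have h1 := hli.fintype_card_le_finrank
    rw [Fintype.card_coe] at h1
    omega
  rw [Fintype.not_linearIndependent_iff] at hnl
  obtain ⟨c, hc, i0, hi0⟩ := hnl
  let φ : (Fin (r + 1) → ℤ) → CY m₃ := fun a => if h : a ∈ S then c ⟨a, h⟩ else 0
  let f : (Fin (r + 1) → ℤ) →₀ CY m₃ := Finsupp.onFinset S φ (by
    intro a ha
    by_contra hn
    exact ha (dif_neg hn))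
  have hfs : f.support ⊆ S := Finsupp.support_onFinset_subset
  have hfa : ∀ a : S, f a.1 = c a := by
    intro a
    show φ a.1 = c a
    exact dif_pos a.2
  refine ⟨f, ?_, fun a ha => hfs ha, ?_⟩
  · intro h0
    apply hi0
    rw [← hfa i0, h0]
    rfl
  · unfold ev
    rw [Finsupp.sum_of_support_subset f hfs _ (fun a _ => by rw [map_zero, zero_mul]),
      ← Finset.sum_coe_sort S]
    have h2 := congrArg (fun z : W => (z : Om)) hc
    simp only [AddSubmonoidClass.coe_finsetSum, ZeroMemClass.coe_zero] at h2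
    rw [← h2]
    apply sum_congr rfl
    intro a _
    rw [hfa a]
    show algebraMap (CY m₃) Om (c a) * y a.1 = ((c a • (⟨y a.1, hmem a.1⟩ : W) : W) : Om)
    rw [Submodule.coe_smul, Algebra.smul_def]

end Pool.Agent.H97.GG
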